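import Mathlib

namespace Pool.Agent.H.MP_f5c34b_co

open PowerSeries Filter

/-- Species trees. -/
inductive T
  | leaf : T
  | node : T → T → T

/-- The number of leaves. -/
def T.size : T → ℕ
  | .leaf => 1
  | .node l r => l.size + r.size

/-- The series `B(z) = (1 - √(1 - 4z)) / 2 = ∑ Cat(n) z^(n+1)`. -/
noncomputable def B : ℝ⟦X⟧ := X * PowerSeries.mk fun n => (catalan n : ℝ)

/-- The generating function of DL-histories. -/
noncomputable def GF : T → ℝ⟦X⟧
  | .leaf => B
  | .node l r => B.subst (GF l * GF r + GF l + GF r)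

/-- The number of DL-histories of size `n`. -/
noncomputable def h (S : T) (n : ℕ) : ℝ := coeff n (GF S)

/-- The radius of convergence of `GF S`. -/
noncomputable def rho (S : T) : ℝ := sSup {r : ℝ | 0 ≤ r ∧ Summable fun n => |h S n| * r ^ n}

/-- The exponential growth factor. -/
noncomputable def alpha (S : T) : ℝ := (rho S)⁻¹

/-- `CT k` is the caterpillar with `k` leaves, for `k ≥ 1`. -/
def CT : ℕ → T
  | 0 => .leaf
  | 1 => .leaf
  | k + 2 => .node (CT (k + 1)) .leaf

/-- Balanced trees. -/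
def Balanced : T → Prop
  | .leaf => True
  | .node l r => l.size ≤ r.size + 1 ∧ r.size ≤ l.size + 1 ∧ Balanced l ∧ Balanced r

theorem B_eq : B = X + B ^ 2 := by
  have h := congrArg (PowerSeries.map (Nat.castRingHom ℝ)) catalanSeries_sq_mul_X_add_one
  have e : PowerSeries.map (Nat.castRingHom ℝ) catalanSeries =
      PowerSeries.mk fun n => (catalan n : ℝ) := by
    ext n; simp
  rw [map_add, map_mul, map_pow, map_one, map_X, e] at h
  unfold B
  linear_combination (-X) * h

noncomputable def G : T → ℝ⟦X⟧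
  | .leaf => X
  | .node l r => GF l * GF r + GF l + GF r

theorem B0 : constantCoeff B = 0 := by simp [B]

theorem H0 (S : T) : constantCoeff (GF S) = 0 := by
  induction S with
  | leaf => exact B0
  | node l r hl hr =>
    exact constantCoeff_subst_eq_zero (a := GF l * GF r + GF l + GF r)
      (by show constantCoeff _ = (0 : ℝ); simp [hl, hr]) B B0

theorem H_eq (S : T) : GF S = G S + GF S ^ 2 := by
  cases S with
  | leaf => exact B_eq
  | node l r =>
    have hs : HasSubst (GF l * GF r + GF l + GF r) :=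
      HasSubst.of_constantCoeff_zero' (by simp [H0])
    show B.subst _ = GF l * GF r + GF l + GF r + (B.subst _) ^ 2
    conv_lhs => rw [B_eq]
    rw [subst_add hs, subst_pow hs, subst_X hs]

theorem h0 (S : T) : h S 0 = 0 := by simpa [h] using H0 S

theorem h_rec (S : T) (n : ℕ) :
    h S n = coeff n (G S) + ∑ p ∈ Finset.HasAntidiagonal.antidiagonal n, h S p.1 * h S p.2 := by
  unfold h
  conv_lhs => rw [H_eq]
  rw [map_add, sq, coeff_mul]

theorem nn_of (S : T) (hG : ∀ n, 0 ≤ coeff n (G S)) (n : ℕ) : 0 ≤ h S n := by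
  induction n using Nat.strong_induction_on with
  | _ n ih =>
    rw [h_rec]
    refine add_nonneg (hG n) (Finset.sum_nonneg fun p hp => ?_)
    have := Finset.HasAntidiagonal.mem_antidiagonal.mp hp
    rcases Nat.eq_zero_or_pos p.1 with h1 | h1
    · rw [h1, h0, zero_mul]
    rcases Nat.eq_zero_or_pos p.2 with h2 | h2
    · rw [h2, h0, mul_zero]
    exact mul_nonneg (ih _ (by omega)) (ih _ (by omega))

theorem G_node (l r : T) (n : ℕ) : coeff n (G (.node l r)) =
    ∑ p ∈ Finset.HasAntidiagonal.antidiagonal n, h l p.1 * h r p.2 + h l n + h r n := by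
  simp only [G, map_add, coeff_mul, h]

theorem G_nn (S : T) : ∀ n, 0 ≤ coeff n (G S) := by
  induction S with
  | leaf => intro n; simp only [G, coeff_X]; split_ifs <;> norm_num
  | node l r hl hr =>
    intro n
    rw [G_node]
    exact add_nonneg (add_nonneg (Finset.sum_nonneg fun p _ =>
      mul_nonneg (nn_of l hl _) (nn_of r hr _)) (nn_of l hl _)) (nn_of r hr _)

theorem h_nn (S : T) (n : ℕ) : 0 ≤ h S n := nn_of S (G_nn S) n

theorem G_le (S : T) (n : ℕ) : coeff n (G S) ≤ h S n := by
  rw [h_rec]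
  exact le_add_of_nonneg_right (Finset.sum_nonneg fun p _ => mul_nonneg (h_nn _ _) (h_nn _ _))

theorem child_le (l r : T) (n : ℕ) :
    h l n ≤ coeff n (G (.node l r)) ∧ h r n ≤ coeff n (G (.node l r)) := by
  rw [G_node]
  have : 0 ≤ ∑ p ∈ Finset.HasAntidiagonal.antidiagonal n, h l p.1 * h r p.2 :=
    Finset.sum_nonneg fun p _ => mul_nonneg (h_nn _ _) (h_nn _ _)
  constructor <;> linarith [h_nn l n, h_nn r n]

theorem h_mul (S : T) (m n : ℕ) : h S m * h S n ≤ h S (m + n) := by
  rw [h_rec S (m + n)]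
  refine le_trans ?_ (le_add_of_nonneg_left (G_nn S _))
  exact Finset.single_le_sum (f := fun p : ℕ × ℕ => h S p.1 * h S p.2)
    (fun p _ => mul_nonneg (h_nn _ _) (h_nn _ _)) (a := (m, n)) (by simp)

theorem h_one (S : T) : 1 ≤ h S 1 := by
  induction S with
  | leaf => exact le_trans (by simp [G]) (G_le _ 1)
  | node l r hl _ => exact hl.trans ((child_le l r 1).1.trans (G_le _ 1))

theorem h_pos (S : T) (n : ℕ) : 1 ≤ h S (n + 1) := by
  induction n with
  | zero => exact h_one S
  | succ n ih => exact le_trans (by nlinarith [h_one S]) (h_mul S (n + 1) 1)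

noncomputable def be (x : ℝ) : ℝ := (1 - √(1 - 4 * x)) / 2

theorem be_le (x : ℝ) : be x ≤ 1 / 2 := by
  unfold be; linarith [Real.sqrt_nonneg (1 - 4 * x)]

theorem be_eq {x : ℝ} (h : x ≤ 1 / 4) : be x = x + be x ^ 2 := by
  unfold be
  have := Real.sq_sqrt (x := 1 - 4 * x) (by linarith)
  nlinarith

theorem be_big {x : ℝ} (h : 1 / 4 ≤ x) : be x = 1 / 2 := by
  unfold be; rw [Real.sqrt_eq_zero'.mpr (by linarith)]; norm_num

theorem be_mono : Monotone be := fun x y h => by
  unfold be
  have := Real.sqrt_le_sqrt (show 1 - 4 * y ≤ 1 - 4 * x by linarith)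
  linarith

theorem be_zero : be 0 = 0 := by simp [be]

theorem be_nn {x : ℝ} (h : 0 ≤ x) : 0 ≤ be x := be_zero ▸ be_mono h

theorem be_cont : Continuous be := by unfold be; fun_prop

theorem be_le_of {x y : ℝ} (h2 : x ≤ y - y ^ 2) : be x ≤ y := by
  unfold be
  have : 1 - 2 * y ≤ √(1 - 4 * x) := Real.le_sqrt_of_sq_le (by nlinarith)
  linarith

noncomputable def g : T → ℝ → ℝ
  | .leaf, z => z
  | .node l r, z => be (g l z) * be (g r z) + be (g l z) + be (g r z)

theorem g_nn (S : T) {z : ℝ} (hz : 0 ≤ z) : 0 ≤ g S z := by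
  induction S with
  | leaf => exact hz
  | node l r hl hr =>
    have := be_nn hl
    have := be_nn hr
    unfold g
    positivity

theorem g_cont (S : T) : Continuous (g S) := by
  induction S with
  | leaf => exact continuous_id
  | node l r hl hr =>
    have := be_cont.comp hl
    have := be_cont.comp hr
    exact ((‹Continuous (be ∘ g l)›.mul this).add ‹_›).add this

theorem g_zero (S : T) : g S 0 = 0 := by
  induction S with
  | leaf => rfl
  | node l r hl hr => simp [g, hl, hr, be_zero]

theorem g_child {l r : T} {z : ℝ} (hz : 0 ≤ z) (h : g (.node l r) z ≤ 1 / 4) :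
    g l z ≤ 1 / 4 ∧ g r z ≤ 1 / 4 := by
  have a := be_nn (g_nn l hz)
  have b := be_nn (g_nn r hz)
  have c := mul_nonneg a b
  unfold g at h
  constructor <;> by_contra hc
  · have := be_big (not_le.mp hc).le
    linarith
  · have := be_big (not_le.mp hc).le
    linarith

theorem conv_sum {a b : ℕ → ℝ} {z u v : ℝ} (hz : 0 ≤ z) (ha : ∀ n, 0 ≤ a n) (hb : ∀ n, 0 ≤ b n)
    (h1 : HasSum (fun n => a n * z ^ n) u) (h2 : HasSum (fun n => b n * z ^ n) v) :
    HasSum (fun n => (∑ p ∈ Finset.HasAntidiagonal.antidiagonal n, a p.1 * b p.2) * z ^ n) (u * v) := by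
  have s1 : Summable fun n => ‖a n * z ^ n‖ := h1.summable.congr fun n => by
    rw [Real.norm_of_nonneg (mul_nonneg (ha n) (pow_nonneg hz n))]
  have s2 : Summable fun n => ‖b n * z ^ n‖ := h2.summable.congr fun n => by
    rw [Real.norm_of_nonneg (mul_nonneg (hb n) (pow_nonneg hz n))]
  have := (summable_norm_sum_mul_antidiagonal_of_summable_norm s1 s2).of_norm.hasSum
  rw [← tsum_mul_tsum_eq_tsum_sum_antidiagonal_of_summable_norm s1 s2, h1.tsum_eq,
    h2.tsum_eq] at this
  refine Eq.mpr (congrArg (fun f => HasSum f (u * v)) (funext fun n => ?_)) this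
  rw [Finset.sum_mul]
  refine Finset.sum_congr rfl fun p hp => ?_
  rw [← Finset.HasAntidiagonal.mem_antidiagonal.mp hp, pow_add]
  ring

theorem quad (S : T) {z u v : ℝ} (hz : 0 ≤ z) (h1 : HasSum (fun n => coeff n (G S) * z ^ n) u)
    (h2 : HasSum (fun n => h S n * z ^ n) v) : v = u + v ^ 2 := by
  have := h1.add (conv_sum hz (h_nn S) (h_nn S) h2 h2)
  rw [sq]
  refine h2.unique ?_
  convert this using 2 with n
  rw [h_rec, add_mul]

theorem upper (S : T) {z u : ℝ} (hz : 0 ≤ z) (h1 : HasSum (fun n => coeff n (G S) * z ^ n) u)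
    (hu : u ≤ 1 / 4) : HasSum (fun n => h S n * z ^ n) (be u) := by
  have nn : ∀ n, 0 ≤ h S n * z ^ n := fun n => mul_nonneg (h_nn S n) (pow_nonneg hz n)
  have nG : ∀ n, 0 ≤ coeff n (G S) * z ^ n := fun n => mul_nonneg (G_nn S n) (pow_nonneg hz n)
  have hP : ∀ N, ∑ n ∈ Finset.range N, h S n * z ^ n ≤ be u := by
    intro N
    induction N with
    | zero => simpa using be_nn (h1.nonneg nG)
    | succ N ih =>
      have e : ∑ n ∈ Finset.range (N + 1), h S n * z ^ n =
          ∑ n ∈ Finset.range (N + 1), coeff n (G S) * z ^ n + ∑ n ∈ Finset.range (N + 1),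
            ∑ p ∈ Finset.HasAntidiagonal.antidiagonal n, (h S p.1 * z ^ p.1) * (h S p.2 * z ^ p.2) := by
        rw [← Finset.sum_add_distrib]
        refine Finset.sum_congr rfl fun n _ => ?_
        rw [h_rec, add_mul, Finset.sum_mul]
        congr 1
        refine Finset.sum_congr rfl fun p hp => ?_
        rw [← Finset.HasAntidiagonal.mem_antidiagonal.mp hp, pow_add]
        ring
      have a1 := sum_le_hasSum (Finset.range (N + 1)) (fun n _ => nG n) h1
      have a2 : ∑ n ∈ Finset.range (N + 1), ∑ p ∈ Finset.HasAntidiagonal.antidiagonal n,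
          (h S p.1 * z ^ p.1) * (h S p.2 * z ^ p.2) ≤ (∑ n ∈ Finset.range N, h S n * z ^ n) ^ 2 := by
        rw [sq, Finset.sum_mul_sum, ← Finset.sum_product', ← Finset.sum_biUnion]
        · rw [← Finset.sum_filter_of_ne (p := fun p => p.1 ≠ 0 ∧ p.2 ≠ 0)]
          · refine Finset.sum_le_sum_of_subset_of_nonneg (fun p hp => ?_)
              (fun p _ _ => mul_nonneg (nn _) (nn _))
            simp only [Finset.mem_filter, Finset.mem_biUnion, Finset.mem_range,
              Finset.HasAntidiagonal.mem_antidiagonal, Finset.mem_product] at hp ⊢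
            omega
          · intro p _ hp
            constructor <;> intro e <;> simp [e, h0] at hp
        · intro m _ n _ hmn
          simp only [Function.onFun, Finset.disjoint_left, Finset.HasAntidiagonal.mem_antidiagonal]
          omega
      have a3 := pow_le_pow_left₀ (Finset.sum_nonneg fun n _ => nn n) ih 2
      rw [e, be_eq hu]
      linarith
  have hs := summable_of_sum_range_le nn hP
  have h2 := quad S hz h1 hs.hasSum
  have h3 := Real.tsum_le_of_sum_range_le nn hP
  have h4 := be_eq hu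
  have h5 := be_le u
  have : ∑' n, h S n * z ^ n = be u := by
    apply le_antisymm h3
    exact be_le_of (by linarith)
  exact this ▸ hs.hasSum

theorem G_sum (S : T) {z : ℝ} (hz : 0 ≤ z) (hv : ∀ l r, S = .node l r → g l z ≤ 1 / 4 ∧ g r z ≤ 1 / 4) :
    HasSum (fun n => coeff n (G S) * z ^ n) (g S z) := by
  induction S with
  | leaf =>
    have := hasSum_single (f := fun n => coeff n (G .leaf) * z ^ n) 1
      (fun n hn => by simp [G, coeff_X, hn])
    simpa [G, g] using this
  | node l r hl hr =>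
    obtain ⟨v1, v2⟩ := hv l r rfl
    have a := upper l hz (hl fun _ _ e => g_child hz (e ▸ v1)) v1
    have b := upper r hz (hr fun _ _ e => g_child hz (e ▸ v2)) v2
    have := ((conv_sum hz (h_nn l) (h_nn r) a b).add a).add b
    refine Eq.mpr (congrArg (fun f => HasSum f _) (funext fun n => ?_)) this
    rw [G_node]
    ring

theorem H_sum (S : T) {z : ℝ} (hz : 0 ≤ z) (hv : g S z ≤ 1 / 4) :
    HasSum (fun n => h S n * z ^ n) (be (g S z)) :=
  upper S hz (G_sum S hz fun _ _ e => g_child hz (e ▸ hv)) hv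

theorem valid_of (S : T) {z : ℝ} (hz : 0 ≤ z) (hs : Summable fun n => h S n * z ^ n) :
    g S z ≤ 1 / 4 := by
  induction S with
  | leaf =>
    have := quad _ hz (G_sum .leaf hz (by simp)) hs.hasSum
    nlinarith [sq_nonneg (∑' n, h .leaf n * z ^ n - 1 / 2)]
  | node l r hl hr =>
    have a : g l z ≤ 1 / 4 := hl (hs.of_nonneg_of_le
      (fun n => mul_nonneg (h_nn _ n) (pow_nonneg hz n)) fun n =>
      mul_le_mul_of_nonneg_right ((child_le l r n).1.trans (G_le _ n)) (pow_nonneg hz n))
    have b : g r z ≤ 1 / 4 := hr (hs.of_nonneg_of_le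
      (fun n => mul_nonneg (h_nn _ n) (pow_nonneg hz n)) fun n =>
      mul_le_mul_of_nonneg_right ((child_le l r n).2.trans (G_le _ n)) (pow_nonneg hz n))
    have := quad _ hz (G_sum (.node l r) hz (by rintro _ _ ⟨rfl, rfl⟩; exact ⟨a, b⟩)) hs.hasSum
    nlinarith [sq_nonneg (∑' n, h (.node l r) n * z ^ n - 1 / 2)]

theorem rho_eq (S : T) : rho S = sSup {r : ℝ | 0 ≤ r ∧ g S r ≤ 1 / 4} := by
  unfold rho
  congr 1
  ext r
  simp only [Set.mem_ofPred_eq, abs_of_nonneg (h_nn S _)]
  exact and_congr_right fun hr => ⟨valid_of S hr, fun hv => (H_sum S hr hv).summable⟩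

theorem size_pos (S : T) : 1 ≤ S.size := by
  induction S with
  | leaf => exact le_rfl
  | node l r hl _ => exact hl.trans (Nat.le_add_right _ _)

theorem g_ge (S : T) {z : ℝ} (hz : 0 ≤ z) (hv : g S z ≤ 1 / 4) : S.size * z ≤ g S z := by
  induction S with
  | leaf => simp [T.size, g]
  | node l r hl hr =>
    obtain ⟨v1, v2⟩ := g_child hz hv
    have a := be_eq v1
    have b := be_eq v2
    have c := mul_nonneg (be_nn (g_nn l hz)) (be_nn (g_nn r hz))
    have := hl v1
    have := hr v2
    simp only [T.size, g]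
    push_cast
    nlinarith [sq_nonneg (be (g l z)), sq_nonneg (be (g r z))]

theorem dom {S U : T} (hd : ∀ z, 0 < z → g S z ≤ 1 / 4 → g U z < g S z) :
    ∀ᶠ n in atTop, h U n ≤ h S n := by
  let Z : Set ℝ := {r : ℝ | 0 ≤ r ∧ g S r ≤ 1 / 4}
  have hb : BddAbove Z := ⟨1, fun r hr => by
    have := g_ge S hr.1 hr.2
    have h1 : (1 : ℝ) ≤ S.size := by exact_mod_cast size_pos S
    nlinarith [hr.1, hr.2]⟩
  have hc : IsClosed Z := (isClosed_le continuous_const continuous_id).inter
    (isClosed_le (g_cont S) continuous_const)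
  have h0' : (0 : ℝ) ∈ Z := ⟨le_rfl, by rw [g_zero]; norm_num⟩
  obtain ⟨z0, hz0⟩ : ∃ z0, z0 = sSup Z := ⟨_, rfl⟩
  have m0 : z0 ∈ Z := hz0 ▸ hc.csSup_mem ⟨0, h0'⟩ hb
  have right : ∀ (V : T) (x : ℝ), g V x < 1 / 4 → ∃ y, x < y ∧ g V y < 1 / 4 := by
    intro V x hx
    have : ∀ᶠ y in nhds x, g V y < 1 / 4 := (g_cont V).continuousAt.eventually_lt_const hx
    exact ((this.filter_mono nhdsWithin_le_nhds).and
      (self_mem_nhdsWithin (s := Set.Ioi x))).exists.imp fun y hy => ⟨hy.2, hy.1⟩
  have p0 : 0 < z0 := by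
    obtain ⟨y, h1, h2⟩ := right S 0 (by rw [g_zero]; norm_num)
    exact h1.trans_le (hz0 ▸ le_csSup hb ⟨h1.le, h2.le⟩)
  obtain ⟨z2, l2, v2⟩ := right U z0 ((hd z0 p0 m0.2).trans_le m0.2)
  obtain ⟨w, lw, lw'⟩ := exists_between l2
  obtain ⟨z1, l1, l1'⟩ := exists_between lw
  have w0 : 0 < w := by linarith
  have z20 : 0 < z2 := by linarith
  have hm : ∃ m, 1 < h S m * w ^ m := by
    by_contra hcon
    push Not at hcon
    have : Summable fun n => h S n * z1 ^ n := by
      refine (summable_geometric_of_lt_one (r := z1 / w) (div_nonneg (by linarith) w0.le)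
        ((div_lt_one w0).mpr l1')).of_nonneg_of_le
        (fun n => mul_nonneg (h_nn _ n) (pow_nonneg (by linarith) n)) fun n => ?_
      rw [div_pow, le_div_iff₀ (pow_pos w0 n)]
      nlinarith [hcon n, pow_pos (show 0 < z1 by linarith) n]
    have := le_csSup hb (show z1 ∈ Z from ⟨by linarith, valid_of S (by linarith) this⟩)
    linarith
  obtain ⟨m, hm⟩ := hm
  have m1 : m ≠ 0 := by rintro rfl; simp [h0] at hm; linarith
  have w1 : w ≤ 1 := by
    have := g_ge U z20.le v2.le
    have h1 : (1 : ℝ) ≤ U.size := by exact_mod_cast size_pos U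
    nlinarith
  have low : ∀ n, w ^ m ≤ h S (n + 1) * w ^ (n + 1) := by
    intro n
    induction n using Nat.strong_induction_on with
    | _ n ih =>
      by_cases hn : n < m
      · have := pow_le_pow_of_le_one w0.le w1 (show n + 1 ≤ m by omega)
        nlinarith [h_pos S n, pow_pos w0 (n + 1)]
      · have a := ih (n - m) (by omega)
        have b := h_mul S (n - m + 1) m
        have e : n - m + 1 + m = n + 1 := by omega
        rw [← e, pow_add]
        have c := mul_le_mul_of_nonneg_right b (pow_pos w0 (n - m + 1 + m)).le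
        rw [pow_add] at c
        nlinarith [pow_pos w0 m]
  have t1 := (H_sum U z20.le v2.le).summable.tendsto_atTop_zero
  have t2 := tendsto_pow_atTop_nhds_zero_of_lt_one (r := w / z2) (by positivity)
    ((div_lt_one z20).mpr lw')
  filter_upwards [t1.eventually_lt_const one_pos, t2.eventually_lt_const (pow_pos w0 m),
    eventually_ge_atTop 1] with n a b c
  obtain ⟨n, rfl⟩ : ∃ k, n = k + 1 := ⟨n - 1, by omega⟩
  have d := low n
  rw [div_pow, div_lt_iff₀ (pow_pos z20 _)] at b
  have p1 := pow_pos w0 (n + 1)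
  have p2 := pow_pos z20 (n + 1)
  have p3 := pow_pos w0 m
  have : 1 ≤ h S (n + 1) * z2 ^ (n + 1) := by
    apply le_of_mul_le_mul_right _ p1
    nlinarith
  exact le_of_mul_le_mul_right (by linarith) p2

end Pool.Agent.H.MP_f5c34b_co
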